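import Pool.Agent.V5helper35.CA.Stm2

/-!
# Project CA, job JOH1: the Johnson homomorphisms
-/

set_option autoImplicit false

namespace Pool.Agent.V5helper61.CA

open Pool.Agent.V5helper35.CA Pool.Agent.V5helper35.CA.NC

variable {R : Type} [CommRing R] {n : ℕ}

lemma eqd_mul_zero {a b : ℕ} {f g : NC R n} (hf : Eqd a f 0) (hg : Eqd b g 0) :
    ∀ w : List (Fin n), w.length ≤ a + b + 1 → (f * g) w = 0 := by
  intro w
  induction w generalizing f a with
  | nil =>
    intro _
    rw [mul_nil, hf [] (Nat.zero_le _)]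
    simp
  | cons i w ih =>
    intro hw
    rw [List.length_cons] at hw
    rw [mul_cons, hf [] (Nat.zero_le _)]
    rcases a with _ | a
    · have := Eqd.mul (Eqd.refl b (der i f)) hg w (by omega)
      rw [this]
      simp
    · have h1 : Eqd a (der i f) 0 := fun u hu => hf (i :: u) (by rw [List.length_cons]; omega)
      rw [ih h1 (by omega)]
      simp

/-- the defect -/
def dl (α : MulAut (FreeGroup (Fin n))) (h : NC R n) (w : FreeGroup (Fin n)) : NC R n :=
  mag R (α w) * h - h * mag R w

lemma dl_zero {c : ℕ} {α : MulAut (FreeGroup (Fin n))} {h : NC R n}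
    (H : ∀ w, Eqd c (mag R (α w) * h) (h * mag R w)) (w : FreeGroup (Fin n)) :
    Eqd c (dl α h w) 0 := by
  intro v hv
  rw [dl, NC.sub_apply, H w v hv, sub_self]
  rfl

lemma dl_mul {c : ℕ} {α : MulAut (FreeGroup (Fin n))} {h : NC R n}
    (H : ∀ w, Eqd c (mag R (α w) * h) (h * mag R w)) (w w' : FreeGroup (Fin n))
    (v : List (Fin n)) (hv : v.length ≤ c + 1) :
    dl α h (w * w') v = dl α h w v + dl α h w' v := by
  have e : dl α h (w * w') = mag R (α w) * dl α h w' + dl α h w * mag R w' := by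
    simp only [dl, map_mul]
    noncomm_ring
  rw [e, NC.add_apply, mul_top_right (dl_zero H w') v hv, mul_top_left (dl_zero H w) v hv, mag_nil,
    mag_nil, one_mul, mul_one, add_comm]

/-- the defect only depends on the image in the abelianization -/
lemma dl_sum {c : ℕ} {α : MulAut (FreeGroup (Fin n))} {h : NC R n}
    (H : ∀ w, Eqd c (mag R (α w) * h) (h * mag R w)) (w : FreeGroup (Fin n))
    (v : List (Fin n)) (hv : v.length ≤ c + 1) :
    dl α h w v = ∑ k, mag R w [k] * dl α h (FreeGroup.of k) v := by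
  let F : FreeGroup (Fin n) →* Multiplicative R :=
    { toFun := fun w => Multiplicative.ofAdd (dl α h w v)
      map_one' := by
        have := dl_mul H 1 1 v hv
        rw [one_mul] at this
        have h2 : dl α h (1 : FreeGroup (Fin n)) v = 0 := by
          simpa using this
        rw [h2]
        rfl
      map_mul' := fun a b => by
        rw [dl_mul H a b v hv]
        rfl }
  let G : FreeGroup (Fin n) →* Multiplicative R :=
    { toFun := fun w => Multiplicative.ofAdd (∑ k, mag R w [k] * dl α h (FreeGroup.of k) v)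
      map_one' := by
        have : (∑ k, mag R (1 : FreeGroup (Fin n)) [k] * dl α h (FreeGroup.of k) v) = 0 := by
          refine Finset.sum_eq_zero fun k _ => ?_
          rw [map_one, one_cons, zero_mul]
        rw [this]
        rfl
      map_mul' := fun a b => by
        rw [← ofAdd_add, ← Finset.sum_add_distrib]
        congr 1
        refine Finset.sum_congr rfl fun k _ => ?_
        rw [mag_mul_single, add_mul] }
  have : F = G := by
    refine FreeGroup.ext_hom _ _ fun i => ?_
    show Multiplicative.ofAdd (dl α h (FreeGroup.of i) v) =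
      Multiplicative.ofAdd (∑ k, mag R (FreeGroup.of i) [k] * dl α h (FreeGroup.of k) v)
    congr 1
    rw [Finset.sum_eq_single i]
    · rw [mag_of_single, if_pos rfl, one_mul]
    · intro k _ hk
      rw [mag_of_single, if_neg hk, zero_mul]
    · intro h
      exact absurd (Finset.mem_univ _) h
  have h2 := DFunLike.congr_fun this w
  exact Multiplicative.ofAdd.injective h2

lemma single_cj {c : ℕ} (hc : 1 ≤ c) {α : MulAut (FreeGroup (Fin n))} {h : NC R n}
    (H : IsCj R c α h) (w : FreeGroup (Fin n)) (k : Fin n) :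
    mag R (α w) [k] = mag R w [k] := by
  have h1 := H.2 w [k] (by simpa using hc)
  rw [mul_single, mul_single, mag_nil, mag_nil, H.1] at h1
  linear_combination h1

lemma single_cj' {c : ℕ} (hc : 1 ≤ c) {α : MulAut (FreeGroup (Fin n))} {h : NC R n}
    (H : IsCj R c α h) (i k : Fin n) :
    mag R (α (FreeGroup.of i)) [k] = if k = i then 1 else 0 := by
  rw [single_cj hc H, mag_of_single]

/-- the action of a change of the conjugating series -/
lemma dl_sub {c : ℕ} (hc : 1 ≤ c) {α : MulAut (FreeGroup (Fin n))} {h h' : NC R n}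
    (H : IsCj R c α h) (hh : Eqd (c - 1) (h' - h) 0) (i : Fin n) (v : List (Fin n))
    (hv : v.length ≤ c + 1) :
    dl α h' (FreeGroup.of i) v = dl α h (FreeGroup.of i) v +
      (X i * (h' - h) - (h' - h) * X i : NC R n) v := by
  have e : dl α h' (FreeGroup.of i) = dl α h (FreeGroup.of i) +
      (X i * (h' - h) - (h' - h) * X i) + (mag R (α (FreeGroup.of i)) - 1 - X i) * (h' - h) := by
    simp only [dl, mag_of]
    noncomm_ring
  have h1 : Eqd 1 (mag R (α (FreeGroup.of i)) - 1 - X i) 0 := by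
    intro w hw
    rcases w with _ | ⟨k, w⟩
    · rw [NC.sub_apply, NC.sub_apply, mag_nil, one_nil, X_nil]
      simp
    · have hw0 : w = [] := List.eq_nil_of_length_eq_zero (by rw [List.length_cons] at hw; omega)
      subst hw0
      rw [NC.sub_apply, NC.sub_apply, single_cj' hc H, one_cons, X_cons, one_nil]
      simp
  rw [e, NC.add_apply, eqd_mul_zero h1 hh v (by omega), add_zero, NC.add_apply]

/-- the value of the corrector on a word of length `c` -/
def cor (c : ℕ) (ι : List (Fin n) → Fin n) (δ : Fin n → NC R n) : NC R n :=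
  fun v => if v.length = c then - δ (ι v) (v ++ [ι v]) else 0

lemma cor_zero (c : ℕ) (hc : 1 ≤ c) (ι : List (Fin n) → Fin n) (δ : Fin n → NC R n) :
    Eqd (c - 1) (cor c ι δ) 0 := by
  intro v hv
  rw [cor, if_neg (by omega)]
  rfl

/-- the projection -/
def prj (c : ℕ) (ι : List (Fin n) → Fin n) (δ : Fin n → NC R n) (i : Fin n) : NC R n :=
  δ i - (X i * cor c ι δ - cor c ι δ * X i)

lemma X_mul_top {c : ℕ} {f g : NC R n} (h : ∀ v : List (Fin n), v.length = c → f v = g v) (i : Fin n)
    (v : List (Fin n)) (hv : v.length = c + 1) : (X i * f : NC R n) v = (X i * g : NC R n) v := by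
  rcases v with _ | ⟨k, v⟩
  · simp at hv
  · rw [X_mul_cons, X_mul_cons]
    split_ifs
    · exact h v (by simpa using hv)
    · rfl

lemma mul_X_top {c : ℕ} {f g : NC R n} (h : ∀ v : List (Fin n), v.length = c → f v = g v) (i : Fin n)
    (v : List (Fin n)) (hv : v.length = c + 1) : (f * X i : NC R n) v = (g * X i : NC R n) v := by
  rcases List.eq_nil_or_concat v with rfl | ⟨w, j, rfl⟩
  · simp at hv
  · rw [List.concat_eq_append] at hv ⊢
    rw [mul_X_append, mul_X_append]
    split_ifs
    · exact h w (by simpa using hv)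
    · rfl

/-- the projection only depends on the words of length `c + 1` -/
lemma prj_congr {c : ℕ} (ι : List (Fin n) → Fin n) {δ δ' : Fin n → NC R n}
    (h : ∀ i v, v.length = c + 1 → δ i v = δ' i v) (i : Fin n) (v : List (Fin n))
    (hv : v.length = c + 1) : prj c ι δ i v = prj c ι δ' i v := by
  have h1 : ∀ u : List (Fin n), u.length = c → cor c ι δ u = cor c ι δ' u := by
    intro u hu
    rw [cor, cor, if_pos hu, if_pos hu, h _ _ (by simp [hu])]
  rw [prj, prj, NC.sub_apply, NC.sub_apply, NC.sub_apply, NC.sub_apply, h i v hv, X_mul_top h1 i v hv,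
    mul_X_top h1 i v hv]

lemma cor_add (c : ℕ) (ι : List (Fin n) → Fin n) (δ δ' : Fin n → NC R n) :
    cor c ι (fun i => δ i + δ' i) = cor c ι δ + cor c ι δ' := by
  ext v
  rw [NC.add_apply]
  simp only [cor]
  split_ifs
  · rw [NC.add_apply]
    ring
  · rw [add_zero]

lemma prj_add (c : ℕ) (ι : List (Fin n) → Fin n) (δ δ' : Fin n → NC R n) (i : Fin n) :
    prj c ι (fun i => δ i + δ' i) i = prj c ι δ i + prj c ι δ' i := by
  rw [prj, cor_add, prj, prj]
  noncomm_ring

/-- the projection kills the inner derivations -/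
lemma prj_ad {c : ℕ} (hc : 1 ≤ c) (ι : List (Fin n) → Fin n)
    (hι : ∀ k v, ι (k :: v) ≠ k) (u : NC R n) (i : Fin n) (v : List (Fin n))
    (hv : v.length = c + 1) : prj c ι (fun i => X i * u - u * X i) i v = 0 := by
  have h1 : ∀ v : List (Fin n), v.length = c →
      cor c ι (fun i => X i * u - u * X i) v = u v := by
    intro v hv
    rw [cor, if_pos hv]
    rcases v with _ | ⟨k, v⟩
    · simp at hv
      omega
    · rw [NC.sub_apply, List.cons_append, X_mul_cons, if_neg (hι k v).symm, ← List.cons_append,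
        mul_X_append, if_pos rfl]
      simp
  rw [prj, NC.sub_apply, NC.sub_apply, NC.sub_apply, X_mul_top h1 i v hv, mul_X_top h1 i v hv]
  simp

lemma prj_zero (c : ℕ) (ι : List (Fin n) → Fin n) (i : Fin n) :
    prj c ι (fun _ => (0 : NC R n)) i = 0 := by
  have h1 : cor c ι (fun _ => (0 : NC R n)) = 0 := by
    ext v
    simp [cor]
  rw [prj, h1]
  simp

/-- the value does not depend on the choice of the conjugating series -/
lemma prj_indep (hU : S_UNQ) {c : ℕ} (hn : 2 ≤ n) (hc : 1 ≤ c) (ι : List (Fin n) → Fin n)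
    (hι : ∀ k v, ι (k :: v) ≠ k) {α : MulAut (FreeGroup (Fin n))} {h h' : NC R n}
    (H : IsCj R c α h) (H' : IsCj R c α h') (i : Fin n) (v : List (Fin n))
    (hv : v.length = c + 1) :
    prj c ι (fun i => dl α h' (FreeGroup.of i)) i v = prj c ι (fun i => dl α h (FreeGroup.of i)) i v := by
  have h1 : Eqd (c - 1) h' h := hU R n hn c α h' h (single_cj' hc H) (by rw [H.1, H'.1])
    (fun i => H'.2 _) (fun i => H.2 _)
  have h2 : Eqd (c - 1) (h' - h) 0 := fun w hw => by
    rw [NC.sub_apply, h1 w hw, sub_self]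
    rfl
  rw [prj_congr ι (δ' := fun i => dl α h (FreeGroup.of i) + (X i * (h' - h) - (h' - h) * X i))
    (fun i v hv => dl_sub hc H h2 i v hv.le) i v hv, prj_add, NC.add_apply, prj_ad hc ι hι _ i v hv,
    add_zero]

/-- it is enough to check the generators -/
lemma gens_enough {d : ℕ} {α : MulAut (FreeGroup (Fin n))} {h : NC R n}
    (H : ∀ i, Eqd d (mag R (α (FreeGroup.of i)) * h) (h * mag R (FreeGroup.of i)))
    (w : FreeGroup (Fin n)) : Eqd d (mag R (α w) * h) (h * mag R w) := by
  induction w using FreeGroup.induction_on with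
  | C1 =>
    rw [map_one, map_one, one_mul, mul_one]
    exact Eqd.refl _ _
  | of i => exact H i
  | inv_of i hi =>
    have h1 := Eqd.mul (Eqd.mul (Eqd.refl d (mag R (α (FreeGroup.of i))⁻¹)) hi)
      (Eqd.refl d (mag R (FreeGroup.of i)⁻¹))
    have e1 : mag R (α (FreeGroup.of i))⁻¹ * (mag R (α (FreeGroup.of i)) * h) *
        mag R (FreeGroup.of i)⁻¹ = h * mag R (FreeGroup.of i)⁻¹ := by
      rw [← mul_assoc, mag_inv_mul, one_mul]
    have e2 : mag R (α (FreeGroup.of i))⁻¹ * (h * mag R (FreeGroup.of i)) *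
        mag R (FreeGroup.of i)⁻¹ = mag R (α (FreeGroup.of i)⁻¹) * h := by
      rw [mul_assoc, mul_assoc, mag_mul_inv, mul_one, map_inv α]
    rw [e1, e2] at h1
    exact h1.symm
  | mul u v hu hv =>
    have h1 := Eqd.mul (Eqd.refl d (mag R (α u))) hv
    have h2 := Eqd.mul hu (Eqd.refl d (mag R v))
    rw [← mul_assoc, ← map_mul, ← map_mul] at h1
    rw [← mul_assoc] at h1
    rw [mul_assoc h, ← map_mul] at h2
    exact h1.trans h2

lemma dl_comp {c : ℕ} (hc : 1 ≤ c) {α β : MulAut (FreeGroup (Fin n))} {h k : NC R n}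
    (H : IsCj R c α h) (K : IsCj R c β k) (w : FreeGroup (Fin n)) (v : List (Fin n))
    (hv : v.length = c + 1) : dl (α * β) (h * k) w v = dl α h w v + dl β k w v := by
  have e : dl (α * β) (h * k) w = dl α h (β w) * k + h * dl β k w := by
    simp only [dl, MulAut.mul_apply]
    noncomm_ring
  rw [e, NC.add_apply, mul_top_left (dl_zero H.2 _) v hv.le, mul_top_right (dl_zero K.2 _) v hv.le, K.1,
    H.1, mul_one, one_mul, dl_sum H.2 (β w) v hv.le, dl_sum H.2 w v hv.le]
  congr 1
  refine Finset.sum_congr rfl fun j _ => ?_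
  rw [single_cj hc K]

lemma exists_ofFn {d : ℕ} (v : List (Fin n)) (hv : v.length = d) : ∃ t : Fin d → Fin n, List.ofFn t = v := by
  subst hv
  exact ⟨v.get, List.ofFn_get v⟩

/-- the value of the homomorphism -/
noncomputable def val {c : ℕ} (ι : List (Fin n) → Fin n) (α : ↥(J n c)) (i : Fin n) (v : List (Fin n)) : ℤ :=
  prj c ι (fun i => dl α.1 α.2.choose (FreeGroup.of i)) i v

lemma val_eq (hU : S_UNQ) {c : ℕ} (hn : 2 ≤ n) (hc : 1 ≤ c) {ι : List (Fin n) → Fin n}
    (hι : ∀ k v, ι (k :: v) ≠ k) (α : ↥(J n c)) {h : NC ℤ n}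
    (H : IsCj ℤ c α.1 h) (i : Fin n) (v : List (Fin n)) (hv : v.length = c + 1) :
    val ι α i v = prj c ι (fun i => dl α.1 h (FreeGroup.of i)) i v :=
  prj_indep hU hn hc ι hι H α.2.choose_spec i v hv

lemma val_mul (hU : S_UNQ) {c : ℕ} (hn : 2 ≤ n) (hc : 1 ≤ c) {ι : List (Fin n) → Fin n}
    (hι : ∀ k v, ι (k :: v) ≠ k) (α β : ↥(J n c)) (i : Fin n) (v : List (Fin n))
    (hv : v.length = c + 1) : val ι (α * β) i v = val ι α i v + val ι β i v := by
  obtain ⟨h, H⟩ := α.2
  obtain ⟨k, K⟩ := β.2
  have HK : IsCj ℤ c (α * β).1 (h * k) := H.mul K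
  rw [val_eq hU hn hc hι α H i v hv, val_eq hU hn hc hι β K i v hv,
    val_eq hU hn hc hι (α * β) HK i v hv, ← NC.add_apply, ← prj_add]
  exact prj_congr ι (fun i v hv => dl_comp hc H K _ v hv) i v hv

lemma val_one (hU : S_UNQ) {c : ℕ} (hn : 2 ≤ n) (hc : 1 ≤ c) {ι : List (Fin n) → Fin n}
    (hι : ∀ k v, ι (k :: v) ≠ k) (i : Fin n) (v : List (Fin n))
    (hv : v.length = c + 1) : val ι (1 : ↥(J n c)) i v = 0 := by
  have := val_mul hU hn hc hι (1 : ↥(J n c)) 1 i v hv
  rw [mul_one] at this
  omega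

/-- the kernel -/
lemma val_ker (hU : S_UNQ) {c : ℕ} (hn : 2 ≤ n) (hc : 1 ≤ c) {ι : List (Fin n) → Fin n}
    (hι : ∀ k v, ι (k :: v) ≠ k) (α : ↥(J n c)) :
    (∀ i v, v.length = c + 1 → val ι α i v = 0) ↔ α.1 ∈ J n (c + 1) := by
  constructor
  · intro h0
    obtain ⟨h, H⟩ := α.2
    let u : NC ℤ n := cor c ι (fun i => dl α.1 h (FreeGroup.of i))
    have hu0 : Eqd (c - 1) ((h - u) - h) 0 := by
      intro w hw
      have := cor_zero c hc ι (fun i => dl α.1 h (FreeGroup.of i)) w hw
      rw [sub_sub_cancel_left, NC.neg_apply]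
      show - (u w) = 0
      rw [show u w = 0 from this, neg_zero]
    have hH' : ∀ w, Eqd (c + 1) (mag ℤ (α.1 w) * (h - u)) ((h - u) * mag ℤ w) := by
      refine gens_enough fun i v hv => ?_
      have h1 := dl_sub hc H hu0 i v hv
      rw [sub_sub_cancel_left] at h1
      suffices h2 : dl α.1 (h - u) (FreeGroup.of i) v = 0 by
        rw [dl, NC.sub_apply] at h2
        linarith
      rw [h1]
      rcases Nat.lt_or_ge v.length (c + 1) with h3 | h3
      · rw [dl_zero H.2 _ v (by omega)]
        have h4 : (X i * (-u) - (-u) * X i : NC ℤ n) v = 0 := by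
          have h5 : Eqd 0 (X i : NC ℤ n) 0 := by
            intro w hw
            have hw0 : w = [] := List.eq_nil_of_length_eq_zero (by omega)
            subst hw0
            rfl
          rw [sub_sub_cancel_left] at hu0
          rw [NC.sub_apply, eqd_mul_zero h5 hu0 v (by omega), eqd_mul_zero hu0 h5 v (by omega), sub_zero]
        rw [h4]
        simp
      · have h4 := h0 i v (by omega)
        rw [val_eq hU hn hc hι α H i v (by omega), prj, NC.sub_apply] at h4
        have h5 : (X i * (-u) - (-u) * X i : NC ℤ n) v = - (X i * u - u * X i : NC ℤ n) v := by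
          have h6 : (X i * (-u) - (-u) * X i : NC ℤ n) = -(X i * u - u * X i) := by
            rw [mul_neg, neg_mul]
            abel
          rw [h6, NC.neg_apply]
        rw [h5]
        exact h4
    refine ⟨h - u, ?_, hH'⟩
    have : u [] = 0 := by
      show (cor c ι (fun i => dl α.1 h (FreeGroup.of i))) [] = 0
      rw [cor, if_neg (by simp; omega)]
    rw [NC.sub_apply, H.1, this, sub_zero]
  · rintro ⟨h, H⟩ i v hv
    have H' : IsCj ℤ c α.1 h := ⟨H.1, fun w => (H.2 w).mono (Nat.le_succ c)⟩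
    rw [val_eq hU hn hc hι α H' i v hv, prj_congr ι (δ' := fun _ => 0) (fun j u hu => ?_) i v hv,
      prj_zero]
    · rfl
    · exact dl_zero H.2 _ u hu.le

/-- the values modulo `m` -/
lemma val_mod (hU : S_UNQ) {c : ℕ} (hn : 2 ≤ n) (hc : 1 ≤ c) {ι : List (Fin n) → Fin n}
    (hι : ∀ k v, ι (k :: v) ≠ k) (α : ↥(J n c)) (m : ℕ)
    {K : Subgroup (FreeGroup (Fin n))} (hK : ∀ w ∈ K, Eqd (c + 1) (mag (ZMod m) w) 1)
    (hα : InnerMod K α.1) (i : Fin n) (v : List (Fin n)) (hv : v.length = c + 1) :
    (m : ℤ) ∣ val ι α i v := by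
  obtain ⟨g, hg⟩ := hα
  obtain ⟨h, H⟩ := α.2
  have h1 : ∀ x, Eqd (c + 1) (mag (ZMod m) (α.1 x) * mag (ZMod m) g)
      (mag (ZMod m) g * mag (ZMod m) x) := by
    intro x
    have h2 := Eqd.mul (hK _ (hg x)) (Eqd.refl (c + 1) (mag (ZMod m) (g * x)))
    have e : α.1 x * (g * x * g⁻¹)⁻¹ * (g * x) = α.1 x * g := by group
    rw [← map_mul, e, one_mul, map_mul, map_mul] at h2
    exact h2
  have H1 : IsCj (ZMod m) c α.1 (mag (ZMod m) g) :=
    ⟨mag_nil g, fun w => (h1 w).mono (Nat.le_succ c)⟩
  have hmm : ∀ w : FreeGroup (Fin n), map (Int.castRingHom (ZMod m)) (mag ℤ w) = mag (ZMod m) w := by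
    intro w
    ext v
    exact map_mag _ w v
  have H2 : IsCj (ZMod m) c α.1 (map (Int.castRingHom (ZMod m)) h) := by
    refine ⟨?_, fun w v hv => ?_⟩
    · show (Int.castRingHom (ZMod m)) (h []) = 1
      rw [H.1, map_one]
    · rw [← hmm, ← hmm, ← map_mul', ← map_mul']
      show (Int.castRingHom (ZMod m)) _ = (Int.castRingHom (ZMod m)) _
      rw [H.2 w v hv]
  have h3 := prj_indep hU hn hc ι hι H1 H2 i v hv
  have h4 : prj c ι (fun i => dl α.1 (mag (ZMod m) g) (FreeGroup.of i)) i v = 0 := by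
    rw [prj_congr ι (δ' := fun _ => 0) (fun j u hu => dl_zero h1 _ u hu.le) i v hv, prj_zero]
    rfl
  rw [h4] at h3
  have hsub : ∀ f g : NC ℤ n, map (Int.castRingHom (ZMod m)) (f - g) =
      map (Int.castRingHom (ZMod m)) f - map (Int.castRingHom (ZMod m)) g := by
    intro f g
    ext v
    show (Int.castRingHom (ZMod m)) (f v - g v) = _
    rw [map_sub]
    rfl
  have hdl : ∀ w, dl α.1 (map (Int.castRingHom (ZMod m)) h) w =
      map (Int.castRingHom (ZMod m)) (dl α.1 h w) := by
    intro w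
    rw [dl, dl, hsub, map_mul', map_mul', hmm, hmm]
  have hX : ∀ j : Fin n, map (Int.castRingHom (ZMod m)) (X j) = X j := by
    intro j
    ext v
    simp only [map, X]
    split_ifs <;> simp
  have hcor : cor c ι (fun i => dl α.1 (map (Int.castRingHom (ZMod m)) h) (FreeGroup.of i)) =
      map (Int.castRingHom (ZMod m)) (cor c ι (fun i => dl α.1 h (FreeGroup.of i))) := by
    ext v
    simp only [cor, hdl, map]
    split_ifs <;> simp
  have h5 : prj c ι (fun i => dl α.1 (map (Int.castRingHom (ZMod m)) h) (FreeGroup.of i)) i =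
      map (Int.castRingHom (ZMod m)) (prj c ι (fun i => dl α.1 h (FreeGroup.of i)) i) := by
    rw [prj, prj, hcor, hsub, hsub, map_mul', map_mul', hX, hdl]
  rw [h5] at h3
  rw [val_eq hU hn hc hι α H i v hv]
  have h6 : ((prj c ι (fun i => dl α.1 h (FreeGroup.of i)) i v : ℤ) : ZMod m) = 0 := h3
  exact (ZMod.intCast_zmod_eq_zero_iff_dvd _ _).1 h6

theorem t_JOH1 : S_JOH1 := by
  intro hU hC n c hn hc
  -- the letters
  have hex : ∀ k : Fin n, ∃ l : Fin n, l ≠ k := by
    intro k
    have _ : Nontrivial (Fin n) := Fin.nontrivial_iff_two_le.2 hn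
    exact exists_ne k
  choose nx hnx using hex
  let ι : List (Fin n) → Fin n := fun v => match v with
    | [] => ⟨0, by omega⟩
    | k :: _ => nx k
  have hι : ∀ k v, ι (k :: v) ≠ k := fun k v => hnx k
  let e := Fintype.equivFin (Fin n × (Fin (c + 1) → Fin n))
  refine ⟨Fintype.card (Fin n × (Fin (c + 1) → Fin n)),
    { toFun := fun α => Multiplicative.ofAdd fun j => val ι α (e.symm j).1 (List.ofFn (e.symm j).2)
      map_one' := ?_
      map_mul' := ?_ }, ?_, ?_⟩
  · show Multiplicative.ofAdd _ = Multiplicative.ofAdd 0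
    congr 1
    funext j
    exact val_one hU hn hc hι _ _ (by simp)
  · intro α β
    rw [← ofAdd_add]
    congr 1
    funext j
    exact val_mul hU hn hc hι _ _ _ _ (by simp)
  · intro α
    rw [← val_ker hU hn hc hι α]
    constructor
    · intro h i v hv
      obtain ⟨t, rfl⟩ := exists_ofFn v hv
      have h1 := congrFun (Multiplicative.ofAdd.injective h) (e (i, t))
      simpa using h1
    · intro h
      show Multiplicative.ofAdd _ = Multiplicative.ofAdd 0
      congr 1
      funext j
      exact h _ _ (by simp)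
  · intro m hm
    obtain ⟨K, hK1, hK2, hK3⟩ := hC n (c + 1) m hm
    refine ⟨K, hK1, hK2, fun α hα j => ?_⟩
    exact val_mod hU hn hc hι α m hK3 hα _ _ (by simp)

end Pool.Agent.V5helper61.CA
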